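import Pool.Agent.J4.H81.Shadow.Free

set_option autoImplicit false

/-!
# Changing the auxiliary objective does not make the shadow vertex method polynomial

The shadow vertex method walks with an auxiliary objective `z`, which is maximised by the current
vertex, along the vertices which maximise `z + t c` for increasing `t`. We let the method choose its
auxiliary objectives in an arbitrary way, with unlimited knowledge of the linear program: the first
one, and then it may replace the auxiliary objective at any moment by any other nonzero linear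
function which is maximised by the current vertex. It may also follow arbitrary improving edges.
(If this could be done without restriction, every path of improving edges would be a run.)

For all `n ≥ 3` and `K` there is a bounded linear program `max c x`, `A x ≤ b`, `x ≥ 0` with `n`
variables, `(K + 1) (2 n - 1) + 2 n` rows and integer data of `O((n K)^2)` bits, with a start vertex
`v`, such that every run of this kind from `v` to an optimal vertex with at most `K` changes of the
auxiliary objective makes at least `2 ^ (n - 1) - 1` pivots; here an arbitrary improving edge counts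
as two changes. So with `n` variables, a shadow vertex method needs more than any given polynomial
number `K` of changes, or exponentially many pivots, whatever rule chooses the auxiliary objectives.

The construction. Take a Goldfarb cube in dimension `n - 1` and the unbounded frustum over it, such
that all normals of the facets are in an open half space whose boundary contains `c`. For all `z`
in a small neighbourhood `U` of a line, the lines `z + t c` meet the normal cones of all
`2 ^ (n - 1)` vertices of the cube. Now a linear map which fixes `c` brings all the normals of a given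
polyhedron `Q` of this kind into `U`. The intersection of the frustum and a tiny copy of `Q` is the
next polyhedron; the first one is a simplicial cone with the vertex `v`. If a method leaves the copy
of `Q` after it has used all its changes, it has an auxiliary objective in `U`, and so it visits
all vertices of the cube. Otherwise it has left the polyhedron `Q` with less than `K` changes.
-/

namespace Pool.Agent.Results.MP_4d246d_lc.AdaptiveShadows

/-- the polyhedron `A x ≤ b`, `x ≥ 0` -/
def feasible {m n : ℕ} (A : Fin m → Fin n → ℤ) (b : Fin m → ℤ) : Set (Fin n → ℝ) :=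
  {x | (∀ i, ∑ j, (A i j : ℝ) * x j ≤ b i) ∧ ∀ j, 0 ≤ x j}

/-- integer vectors as real vectors -/
def re {n : ℕ} (x : Fin n → ℤ) : Fin n → ℝ := fun j => (x j : ℝ)

/-- `x` maximises the linear function `c` on `P` -/
def Optimal {n : ℕ} (P : Set (Fin n → ℝ)) (c x : Fin n → ℝ) : Prop :=
  x ∈ P ∧ ∀ y ∈ P, c ⬝ᵥ y ≤ c ⬝ᵥ x

/-- `x` and `y` are vertices of `P` joined by an edge on which the objective `c` increases -/
def ImprovingEdge {n : ℕ} (P : Set (Fin n → ℝ)) (c x y : Fin n → ℝ) : Prop :=
  x ∈ P.extremePoints ℝ ∧ y ∈ P.extremePoints ℝ ∧ IsExposed ℝ P (segment ℝ x y) ∧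
    c ⬝ᵥ x < c ⬝ᵥ y

/-- A pivot of the shadow vertex method with the auxiliary objective `z`: `x` and `y` are joined by
an edge on which the objective `c` increases, and no point `u` of `P` with `c x < c u` has a larger
slope `z (u - x) / c (u - x)` than `y`. -/
def ShadowPivot {n : ℕ} (P : Set (Fin n → ℝ)) (c z x y : Fin n → ℝ) : Prop :=
  ImprovingEdge P c x y ∧ ∀ u ∈ P, c ⬝ᵥ x < c ⬝ᵥ u →
    (z ⬝ᵥ (u - x)) * (c ⬝ᵥ (y - x)) ≤ (z ⬝ᵥ (y - x)) * (c ⬝ᵥ (u - x))

/-- `Run P c v k N z x`: the method has started at the vertex `v` of `P` and has made `N` pivots;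
now it is at `x`, and `z` is its auxiliary objective. The first auxiliary objective is any nonzero
linear function which is maximised by `v` (`start`). The method may make a shadow pivot with the
current auxiliary objective (`pivot`), or replace the auxiliary objective by any nonzero linear
function which is maximised by the current vertex (`change`), or follow any improving edge and then
choose a new auxiliary objective (`free`). The number `k` counts the changes of the
auxiliary objective; an arbitrary improving edge counts as two changes. -/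
inductive Run {n : ℕ} (P : Set (Fin n → ℝ)) (c v : Fin n → ℝ) :
    ℕ → ℕ → (Fin n → ℝ) → (Fin n → ℝ) → Prop
  | start (z : Fin n → ℝ) (hz : z ≠ 0) (hv : Optimal P z v) : Run P c v 0 0 z v
  | pivot {k N : ℕ} {z x : Fin n → ℝ} (y : Fin n → ℝ) (h : Run P c v k N z x)
      (hy : ShadowPivot P c z x y) : Run P c v k (N + 1) z y
  | change {k N : ℕ} {z x : Fin n → ℝ} (z' : Fin n → ℝ) (h : Run P c v k N z x) (hz : z' ≠ 0)
      (hx : Optimal P z' x) : Run P c v (k + 1) N z' x
  | free {k N : ℕ} {z x : Fin n → ℝ} (y z' : Fin n → ℝ) (h : Run P c v k N z x)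
      (hy : ImprovingEdge P c x y) (hz : z' ≠ 0) (hy' : Optimal P z' y) :
      Run P c v (k + 2) (N + 1) z' y

theorem Run.free' {n : ℕ} {P : Set (Fin n → ℝ)} {c v : Fin n → ℝ} {k N : ℕ} {z x : Fin n → ℝ}
    (h : Run P c v k N z x) : J4.H81.Shadow.FreeRun P c v k N z x := by
  induction h with
  | start z hz hv => exact .start z hz hv
  | pivot y _ hy ih => exact .pivot y ih ⟨hy.1.1, hy.1.2.1, hy.1.2.2.1, hy.1.2.2.2, hy.2⟩
  | change z' _ hz hx ih => exact .change z' ih hz hx
  | free y z' _ hy hz hy' ih => exact .free y z' ih hy hz hy'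

open J4.H81.Shadow in
theorem result (n K : ℕ) (hn : 3 ≤ n) :
    ∃ (A : Fin ((K + 1) * (2 * n - 1) + 2 * n) → Fin n → ℤ)
      (b : Fin ((K + 1) * (2 * n - 1) + 2 * n) → ℤ) (c v : Fin n → ℤ),
      (∀ i, |b i| ≤ 2 ^ (60 * (n * (K + 1)) ^ 2) ∧
        ∀ j, |A i j| ≤ 2 ^ (60 * (n * (K + 1)) ^ 2)) ∧
      (∀ j, |c j| ≤ 1 ∧ |v j| ≤ 2 ^ (60 * (n * (K + 1)) ^ 2)) ∧
      re v ∈ (feasible A b).extremePoints ℝ ∧ Bornology.IsBounded (feasible A b) ∧
      ∀ (k N : ℕ) (z x : Fin n → ℝ), k ≤ K → Run (feasible A b) (re c) (re v) k N z x →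
        Optimal (feasible A b) (re c) x → 2 ^ (n - 1) ≤ N + 1 := by
  obtain ⟨e, rfl⟩ : ∃ e, n = e + 3 := ⟨n - 3, by omega⟩
  have hcard : Fintype.card (Idx e (K + 1)) = (K + 1) * (2 * (e + 3) - 1) + 2 * (e + 3) := by
    rw [card_Idx, show 2 * (e + 3) - 1 = 2 * e + 5 by omega]
  have σ : Idx e (K + 1) ≃ Fin ((K + 1) * (2 * (e + 3) - 1) + 2 * (e + 3)) :=
    Fintype.equivFinOfCardEq hcard
  have hpar := par e K
  have hset : feasible (fun i => AA e (K + 1) (2 ^ (8 * (e + 3))) (2 ^ (8 * (e + 3))) (σ.symm i))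
      (fun i => bb e (K + 1) (2 ^ (8 * (e + 3))) (2 ^ (8 * (e + 3)))
        (2 ^ (48 * (e + 3) ^ 2 * (K + 1))) (σ.symm i)) =
      QQ (2 ^ (8 * (e + 3))) (2 ^ (8 * (e + 3))) (2 ^ (48 * (e + 3) ^ 2 * (K + 1))) (K + 1)
        (fun _ => ((2 ^ (48 * (e + 3) ^ 2 * (K + 1)) : ℕ) : ℝ) ^ (K + 1)) (K + 1) ∩
        Box e (((2 ^ (48 * (e + 3) ^ 2 * (K + 1)) : ℕ) : ℝ) ^ (K + 1)) := by
    ext x
    rw [mem_iff]
    constructor
    · rintro ⟨h1, h2⟩
      refine ⟨fun i => ?_, h2⟩
      have := h1 (σ i)
      simp only [Equiv.symm_apply_apply] at this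
      exact this
    · rintro ⟨h1, h2⟩
      exact ⟨fun i => h1 (σ.symm i), h2⟩
  have hc : re (Pi.single 0 1 : Fin (e + 3) → ℤ) = c0 e := by
    ext j
    unfold re c0
    by_cases hj : j = 0
    · subst hj; simp
    · rw [Pi.single_eq_of_ne hj, Pi.single_eq_of_ne hj]; simp
  have hv : re (fun _ => ((2 ^ (48 * (e + 3) ^ 2 * (K + 1)) : ℕ) : ℤ) ^ (K + 1) :
      Fin (e + 3) → ℤ) =
      fun _ => ((2 ^ (48 * (e + 3) ^ 2 * (K + 1)) : ℕ) : ℝ) ^ (K + 1) := by
    ext j
    unfold re
    push_cast
    rfl
  refine ⟨fun i => AA e (K + 1) (2 ^ (8 * (e + 3))) (2 ^ (8 * (e + 3))) (σ.symm i),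
    fun i => bb e (K + 1) (2 ^ (8 * (e + 3))) (2 ^ (8 * (e + 3)))
      (2 ^ (48 * (e + 3) ^ 2 * (K + 1))) (σ.symm i), Pi.single 0 1,
    fun _ => ((2 ^ (48 * (e + 3) ^ 2 * (K + 1)) : ℕ) : ℤ) ^ (K + 1),
    fun i => ⟨bb_le e K _, fun j => AA_le e K _ j⟩, fun j => ⟨?_, ?_⟩, ?_, ?_, ?_⟩
  · by_cases hj : j = 0
    · subst hj; simp
    · rw [Pi.single_eq_of_ne hj]; simp
  · rw [abs_of_nonneg (by positivity)]
    push_cast
    rw [← pow_mul]
    exact pow_le_pow_right₀ (by norm_num) (by have := exp2 e K; omega)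
  · rw [hset, hv]
    exact start_ext hpar
  · rw [hset]
    apply Bornology.IsBounded.subset (Metric.isBounded_Icc (0 : Fin (e + 3) → ℝ)
      (fun _ => 2 * ((2 ^ (48 * (e + 3) ^ 2 * (K + 1)) : ℕ) : ℝ) ^ (K + 1)))
    rintro x ⟨-, hx⟩
    exact ⟨fun j => (hx j).1, fun j => (hx j).2⟩
  · intro k N z x hk hrun hx
    have h1 := hrun.free'
    have h2 : J4.H81.Shadow.Run (feasible (fun i => AA e (K + 1) (2 ^ (8 * (e + 3)))
        (2 ^ (8 * (e + 3))) (σ.symm i)) (fun i => bb e (K + 1) (2 ^ (8 * (e + 3)))
        (2 ^ (8 * (e + 3))) (2 ^ (48 * (e + 3) ^ 2 * (K + 1))) (σ.symm i)))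
        (re (Pi.single 0 1)) (re fun _ => ((2 ^ (48 * (e + 3) ^ 2 * (K + 1)) : ℕ) : ℤ) ^ (K + 1))
        k N z x := by
      refine h1.run (ρ := Idx e (K + 1) ⊕ Fin (e + 3))
        (Sum.elim (AA e (K + 1) (2 ^ (8 * (e + 3))) (2 ^ (8 * (e + 3))))
          (fun j => -Pi.single j 1))
        (Sum.elim (fun i => (bb e (K + 1) (2 ^ (8 * (e + 3))) (2 ^ (8 * (e + 3)))
          (2 ^ (48 * (e + 3) ^ 2 * (K + 1))) i : ℝ)) (fun _ => 0)) ?_
      have hneg : ∀ (j : Fin (e + 3)) (x : Fin (e + 3) → ℝ),
          dz (-Pi.single j 1) x = - x j := by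
        intro j x
        unfold dz
        rw [Finset.sum_eq_single j]
        · simp
        · intro l _ hl
          simp [Pi.single_eq_of_ne hl]
        · intro h'; exact absurd (Finset.mem_univ _) h'
      rw [hset]
      ext x
      rw [mem_iff]
      constructor
      · rintro ⟨h1, h2⟩ (i | j)
        · exact h1 i
        · simp only [Sum.elim_inr]
          rw [hneg]
          linarith [h2 j]
      · intro h1
        refine ⟨fun i => h1 (Sum.inl i), fun j => ?_⟩
        have := h1 (Sum.inr j)
        simp only [Sum.elim_inr] at this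
        rw [hneg] at this
        linarith
    rw [hset, hc, hv] at h2
    have h3 : J4.H81.Shadow.Optimal (QQ (2 ^ (8 * (e + 3))) (2 ^ (8 * (e + 3)))
        (2 ^ (48 * (e + 3) ^ 2 * (K + 1))) (K + 1)
        (fun _ => ((2 ^ (48 * (e + 3) ^ 2 * (K + 1)) : ℕ) : ℝ) ^ (K + 1)) (K + 1) ∩
        Box e (((2 ^ (48 * (e + 3) ^ 2 * (K + 1)) : ℕ) : ℝ) ^ (K + 1))) (c0 e) x := by
      rw [hset, hc] at hx
      exact hx
    exact run_long hpar (by omega) h2 h3

end Pool.Agent.Results.MP_4d246d_lc.AdaptiveShadows
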