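import Pool.Agent.J4.H83.SX.FinalT
set_option autoImplicit false

/-!
# A version of the simplex method which is polynomial on products of simplices cut by few constraints

Linear programs `max c x`, `A x ≤ b`, `x ≥ 0` with `n` variables; `P` is the feasible region. We
give a deterministic version of the simplex method, that is an algorithm which follows improving
edges from the given vertex to an optimal vertex, or to a vertex with an unbounded improving edge,
on every linear program (degenerate and unbounded ones included), such that

* its total running time in the bit model is quasi-polynomial on all linear programs;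
* the number of pivots is at most `(n + 1) ^ 2 * 2 ^ (30 (log₂ e + 1) ^ 2)`, if every face `F` of
  `P` has at most `2 dim F + e` facets (`Thin`), and the total running time in the bit model is
  polynomial, if `(log₂ e) ^ 2 ≤ C log L` for the length `L` of the input;
* `P` has this property (with `3 e` instead of `e`), if it is a product of simplices up to `e`
  constraints (`Grouped`): the constraints are in `d` groups with at most `dim P + d` members
  altogether, such that at no point of `P` all members of a group are tight, except for `e` arbitrary
  constraints and those which are tight on all of `P` or nowhere on `P`.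

For nondegenerate linear programs with bounded `P`, a structure with `e = 0` means that `P` is
combinatorially a product of simplices. The constraints may be in any position to each other. For
instance, if `P` has dimension `n`, and the groups are `{l j ≤ x j, x j ≤ u j}` with affine functions
`l j < u j` on `P`, then `P` is a combinatorial cube, as in most of the exponential lower bounds
for pivot rules (Klee-Minty cubes, deformed products of intervals). The groups
`{x (s, a) ≥ 0 : a}`, one for every state `s`, are a structure with `e = 0` for the linear programs of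
discounted Markov decision processes. We may add `e` arbitrary constraints to all of these, for
instance Markov decision processes with side constraints. The structure need not be known to the
algorithm.

The algorithm. A call with counter `g` on a face from the vertex `v`: remove the constraints which
are nowhere tight on the current polyhedron. As long as there is a facet containing the current
vertex and an optimal vertex, go to this facet. If there is none, compute an optimal vertex `w`, and
follow the path which the algorithm makes with counter `g - 1` in the relaxation without the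
constraints which are tight at `w`, until it reaches one of these constraints; there we have a facet
which contains the current vertex and `w`. With counter `0` we use a quasi-polynomial
algorithm, based on the recursion of Kalai and Kleitman (`Y644.QS`). All counters are tried in
parallel. In the starting result `NestedBlocks` the constraints which are nowhere tight are not
removed; its bounds are about the positions of the nonzero coefficients of `A`, and do not apply here,
since all constraints may have all coefficients nonzero.

The proof. Let `F` be a face of `P` on which a call with counter `2` relaxes. It has at most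
`2 dim F + e` facets, and at least `dim F - 1` of them are left out. So the relaxation has at most
`dim F + e + 1` constraints, and this remains true if we go to its facets: the dimension and the number of
constraints go down together. So at the next relaxation there are at most `e + 2` constraints left, and
since there is a vertex the dimension is at most `e + 2`, too.
-/

namespace Pool.Agent.Results.MP_4d246d_lc.CutProductsOfSimplices

open Pool.Agent.NPC Pool.Agent.J4.H83

/-- the polyhedron `A x ≤ b`, `x ≥ 0` -/
def polyhedron {m n : ℕ} (A : Fin m → Fin n → ℚ) (b : Fin m → ℚ) : Set (Fin n → ℝ) :=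
  {x | (∀ i, ∑ j, (A i j : ℝ) * x j ≤ b i) ∧ ∀ j, 0 ≤ x j}

/-- the objective function `c x` -/
noncomputable def obj {n : ℕ} (c : Fin n → ℚ) (x : Fin n → ℝ) : ℝ := ∑ j, (c j : ℝ) * x j

/-- rational vectors as real vectors -/
noncomputable def re {n : ℕ} (x : Fin n → ℚ) : Fin n → ℝ := fun j => (x j : ℝ)

/-- `x` and `y` are joined by an edge of `P` on which the objective function increases -/
def ImprovingEdge {n : ℕ} (P : Set (Fin n → ℝ)) (c x y : Fin n → ℚ) : Prop :=
  IsExposed ℝ P (segment ℝ (re x) (re y)) ∧ obj c (re x) < obj c (re y)

/-- `P` has an unbounded edge at `x`, in the direction `d`, on which the objective function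
increases -/
def UnboundedEdge {n : ℕ} (P : Set (Fin n → ℝ)) (c x d : Fin n → ℚ) : Prop :=
  IsExposed ℝ P {z | ∃ t : ℝ, 0 ≤ t ∧ z = re x + t • re d} ∧ 0 < obj c (re d)

/-- The vertices `x 0, …, x N` of `P` are a path of improving edges starting at `v`. It ends at a
vertex maximising the objective function (`d = none`), or at a vertex with an unbounded improving
edge in the direction `e` (`d = some e`). -/
def IsSimplexPath {n : ℕ} (P : Set (Fin n → ℝ)) (c v : Fin n → ℚ) (N : ℕ)
    (x : ℕ → Fin n → ℚ) (d : Option (Fin n → ℚ)) : Prop :=
  x 0 = v ∧ (∀ k ≤ N, re (x k) ∈ Set.extremePoints ℝ P) ∧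
    (∀ k < N, ImprovingEdge P c (x k) (x (k + 1))) ∧
    (d = none → ∀ y ∈ P, obj c y ≤ obj c (re (x N))) ∧
    ∀ e, d = some e → UnboundedEdge P c (x N) e

/-- the linear program `A`, `b`, `c` as a bit string -/
def program {m n : ℕ} (A : Fin m → Fin n → ℚ) (b : Fin m → ℚ) (c : Fin n → ℚ) : List Bool :=
  bits (List.ofFn fun i => List.ofFn (A i), List.ofFn b, List.ofFn c)

/-- the input `A`, `b`, `c` and the start vertex `v` as a bit string -/
def input {m n : ℕ} (A : Fin m → Fin n → ℚ) (b : Fin m → ℚ) (c v : Fin n → ℚ) : List Bool :=
  bits (List.ofFn fun i => List.ofFn (A i), List.ofFn b, List.ofFn c, List.ofFn v)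

/-- the output `x 0, …, x N` and `d` as a bit string -/
def output {n : ℕ} (N : ℕ) (x : ℕ → Fin n → ℚ) (d : Option (Fin n → ℚ)) : List Bool :=
  bits ((List.range (N + 1)).map (fun k => List.ofFn (x k)), d.map List.ofFn)

/-- A function on bit strings is computable in quasi-polynomial time: some Turing machine (in the
sense of Mathlib) computes it, with time at most `2 ^ (C (log₂ L + 1) ^ 2)` on inputs of length
`L`. -/
def QuasiPolyTime (f : List Bool → List Bool) : Prop :=
  ∃ (M : Turing.TM2ComputableInTime (id : List Bool → List Bool) (id : List Bool → List Bool) f)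
    (C : ℕ), ∀ L, M.time L ≤ 2 ^ (C * (Nat.log 2 L + 1) ^ 2)

/-- The slack of a constraint: `i : Fin m` stands for the constraint `(A x) i ≤ b i`, and
`j : Fin n` for the constraint `x j ≥ 0`. The constraint is tight at `x` if the slack is `0`. -/
noncomputable def slack {m n : ℕ} (A : Fin m → Fin n → ℚ) (b : Fin m → ℚ) :
    Fin m ⊕ Fin n → (Fin n → ℝ) → ℝ
  | Sum.inl i, x => b i - ∑ j, (A i j : ℝ) * x j
  | Sum.inr j, x => x j

/-- The face of all the points of the polyhedron at which the constraints in `T` are tight. -/
def face {m n : ℕ} (A : Fin m → Fin n → ℚ) (b : Fin m → ℚ) (T : Finset (Fin m ⊕ Fin n)) :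
    Set (Fin n → ℝ) :=
  {x | x ∈ polyhedron A b ∧ ∀ i ∈ T, slack A b i x = 0}

/-- Every nonempty face `F` of the polyhedron `A x ≤ b`, `x ≥ 0` has at most `2 dim F + e` facets; we
count the constraints which are tight at some but not at all points of `F`. -/
def Thin {m n : ℕ} (A : Fin m → Fin n → ℚ) (b : Fin m → ℚ) (e : ℕ) : Prop :=
  ∀ T : Finset (Fin m ⊕ Fin n), (face A b T).Nonempty →
    {i : Fin m ⊕ Fin n | (∃ x ∈ face A b T, slack A b i x = 0) ∧
      ∃ x ∈ face A b T, slack A b i x ≠ 0}.ncard ≤
      2 * Module.finrank ℝ (vectorSpan ℝ (face A b T)) + e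

/-- The polyhedron `P` given by `A x ≤ b`, `x ≥ 0` is a product of simplices up to `e` constraints:
there are disjoint groups `G 0, …, G (d - 1)` of constraints with at most `dim P + d` members
altogether, such that at no point of `P` all members of a group are tight. Each constraint is in a
group, or in a set `X` of `e` exceptional constraints, or tight at all points of `P`, or tight at no
point of `P`. -/
def Grouped {m n : ℕ} (A : Fin m → Fin n → ℚ) (b : Fin m → ℚ) (e : ℕ) : Prop :=
  ∃ (d : ℕ) (G : Fin d → Finset (Fin m ⊕ Fin n)) (X : Finset (Fin m ⊕ Fin n)),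
    (∀ j k, j ≠ k → Disjoint (G j) (G k)) ∧
    ∑ j, (G j).card ≤ Module.finrank ℝ (vectorSpan ℝ (polyhedron A b)) + d ∧
    (∀ j, ∀ x ∈ polyhedron A b, ∃ i ∈ G j, slack A b i x ≠ 0) ∧
    X.card ≤ e ∧
    ∀ i, (∃ j, i ∈ G j) ∨ i ∈ X ∨ (∀ x ∈ polyhedron A b, slack A b i x = 0) ∨
      ∀ x ∈ polyhedron A b, slack A b i x ≠ 0

section
variable {m n : ℕ} {A : Fin m → Fin n → ℚ} {b : Fin m → ℚ} {e : ℕ}

theorem slack_eq : slack A b = SX.slack A b := by
  funext i x
  cases i <;> rfl

theorem face_eq (T : Finset (Fin m ⊕ Fin n)) : face A b T = SX.faceOf A b T := by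
  unfold face SX.faceOf
  rw [slack_eq]
  rfl

theorem thin_iff : Thin A b e ↔ SX.Thin A b e := by
  classical
  unfold Thin SX.Thin
  refine forall_congr' fun T => ?_
  rw [face_eq, slack_eq]
  have h : {i : Fin m ⊕ Fin n | (∃ x ∈ SX.faceOf A b T, SX.slack A b i x = 0) ∧
      ∃ x ∈ SX.faceOf A b T, SX.slack A b i x ≠ 0} =
      ((SX.facets A b T : Finset (Fin m ⊕ Fin n)) : Set (Fin m ⊕ Fin n)) := by
    ext i
    simp [SX.facets]
  rw [h, Set.ncard_coe_finset]

theorem grouped_iff : Grouped A b e ↔ SX.Grouped A b e := by
  unfold Grouped SX.Grouped
  rw [slack_eq]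
  rfl

end

/-- **A version of the simplex method which runs in quasi-polynomial time on all linear programs,
and in polynomial time if the faces of the feasible region have few facets, for instance on
products of simplices cut by few constraints.** -/
theorem result : ∃ f : List Bool → List Bool,
    QuasiPolyTime f ∧
    (∀ (m n : ℕ) (A : Fin m → Fin n → ℚ) (b : Fin m → ℚ) (c v : Fin n → ℚ),
      re v ∈ Set.extremePoints ℝ (polyhedron A b) →
      ∃ (N : ℕ) (x : ℕ → Fin n → ℚ) (d : Option (Fin n → ℚ)),
        f (input A b c v) = output N x d ∧ IsSimplexPath (polyhedron A b) c v N x d ∧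
        ∀ e : ℕ, Thin A b e → N ≤ (n + 1) ^ 2 * 2 ^ (30 * (Nat.log 2 e + 1) ^ 2)) ∧
    (∀ C : ℕ, ∃ g : List Bool → List Bool, PolyTime g ∧
      ∀ (m n : ℕ) (A : Fin m → Fin n → ℚ) (b : Fin m → ℚ) (c v : Fin n → ℚ) (e : ℕ),
        re v ∈ Set.extremePoints ℝ (polyhedron A b) → Thin A b e →
        Nat.log 2 e ^ 2 ≤ C * Nat.log 2 (input A b c v).length →
        g (input A b c v) = f (input A b c v)) ∧
    (∀ (m n : ℕ) (A : Fin m → Fin n → ℚ) (b : Fin m → ℚ) (e : ℕ),
      Grouped A b e → Thin A b (3 * e)) ∧
    ∃ q : Polynomial ℕ, ∀ (m n : ℕ) (A : Fin m → Fin n → ℚ) (b : Fin m → ℚ) (c v : Fin n → ℚ),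
      re v ∈ Set.extremePoints ℝ (polyhedron A b) →
      (input A b c v).length ≤ q.eval (program A b c).length := by
  refine ⟨fun x => bits (SX.lpBitsT x ((16 * x.length + 16) ^ sz (16 * x.length + 16))),
    SX.quasi_lpTT, fun m n A b c v hv => ?_,
    fun C => ⟨_, SX.poly_lpKT C, fun m n A b c v e hv he hC => ?_⟩, fun m n A b e h => ?_,
    NPC.Y644.exists_vertex_bound⟩
  · have hL : m + n < (input A b c v).length := Y644.QS.le_sz_inp
    have hlen : (input A b c v).length = sz (Y644.QS.inp A b c v) := bits_length _
    obtain ⟨N, x, d, h1, h2⟩ := SX.lpT_len (c := c) hv (sz (Y644.QS.inp A b c v))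
    refine ⟨N, x, d, ?_, h2, fun e he => (h1 _ (SX.term_thin (c := c) hv SX.two_le_sz
      (thin_iff.1 he) le_rfl)).2⟩
    change bits (SX.lpBitsT (bits (Y644.QS.inp A b c v)) _) = _
    rw [SX.lpBitsT_inp, (h1 _ (SX.term_generalT hv (Y644.QW.bnd_main hL))).1]
    rfl
  · have hL : m + n < (input A b c v).length := Y644.QS.le_sz_inp
    have hlen : (input A b c v).length = sz (Y644.QS.inp A b c v) := bits_length _
    obtain ⟨N, x, d, h1, h2⟩ := SX.lpT_len (c := c) hv (sz (Y644.QS.inp A b c v))
    change bits (SX.lpBitsT (bits (Y644.QS.inp A b c v)) _) =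
      bits (SX.lpBitsT (bits (Y644.QS.inp A b c v)) _)
    rw [SX.lpBitsT_inp, SX.lpBitsT_inp,
      (h1 _ (SX.term_generalT hv (Y644.QW.bnd_main hL))).1, (h1 _ ?_).1]
    refine SX.term_thin (c := c) hv SX.two_le_sz (thin_iff.1 he) ?_
    exact SX.le_KT (by omega) (by omega) hC
  · exact thin_iff.2 (grouped_iff.1 h).thin

end Pool.Agent.Results.MP_4d246d_lc.CutProductsOfSimplices
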