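import Pool.Agent.J4.H61.LN.Run
set_option autoImplicit false

/-!
# Deterministic local search with exponentially large neighbourhoods is exponential on abstract cubes

`flip x i` is the neighbour of the vertex `x` of the `n`-cube in direction `i`, `sw x T` is `x` with all
the directions in `T` switched, `improving f x` is the set of directions `i` with `f x < f (flip x i)`, and
`seen f w t` is the list of triples (visited vertex, its value, its improving directions) for
`w t, …, w 0`.

The starting results `AllDeterministicRules`, `BlockPivots`, `SquareRootExponent` treat rules which choose
the next vertex themselves, one improving direction or one set of improving directions, from what they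
have seen at the visited vertices. Here the next vertex is the BEST vertex of a large neighbourhood which
the rule chooses: at each move it names up to `2 ^ r` nonempty sets `T` of improving directions and a set
`D` of up to `r` further directions (improving or not), and the method moves to the vertex with the
largest value in the union of all the faces with the directions `D` through the vertices `sw x T`
(`Cand`). Special cases are
* one pivot, or switching a set of improving directions (one set `T`, `D = ∅`);
* the greatest improvement among all, or among any chosen, improving pivots (`T = {i}`, `D = ∅`);
* multiple pricing and block coordinate ascent: an exact optimum over any face of dimension at most `r`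
  through `x` with an improving direction `i` (`T = {i}`, `i ∈ D`);
* the best vertex after switching any subset of any `r` chosen improving directions, and so on.
The choice may depend in any way on everything seen so far: no bound on memory or computation.

For every such rule and every start vertex there is an injective objective function with exactly one local
maximum on every face for which at least `2 ^ k` moves are made, whenever `r ≤ k` and
`15500 (2 r + 1) k ^ 2 (⌊log₂ k⌋ + 1) ^ 3 ≤ n`. So with neighbourhoods of polynomial size, and even with
`r = n ^ o(1)`, still `2 ^ (n ^ (1/2 - o(1)))` moves are needed, and with neighbourhoods of `4 ^ k`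
vertices, `k = n ^ (1/3 - o(1))`, there may be `2 ^ k` moves; from every vertex an increasing path of at
most `n` steps leads to the maximum.

Proof. The adversary of `SquareRootExponent` (`Pool/Agent/R617/SR/`) gets two new tools. When the rule has
named its neighbourhood, the adversary chooses the next vertex `b = sw x T`: by halving, `r + 1`
coordinates (one of them switched in `T`) separate the class of `b` (its face with the directions `D`)
from all the other faces, and these coordinates are frozen, so that `b`'s face lies in a hypersink above
all the others; and no direction of `D` is shown as improving at `b`, so that `b` is the highest vertex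
of its face. What the rule learns, that all the other candidates are lower than `b`, is a list of up to
`4 ^ r` comparisons (`ExtC`), which have to be respected after the coordinates have been released: they
are wiped out together with the visited vertices (`ext_comp`, `goal_step`).
-/

namespace Pool.Agent.Results.MP_4d246d_lc.LargeNeighbourhoods

open Finset Pool.Agent.TH70.AR Pool.Agent.TH70.AR.MS Pool.Agent.J4.H61.LN

/-- **Every deterministic local search rule with large neighbourhoods is exponential on abstract objective
functions.** Let `1 ≤ k`, `r ≤ k` and `15500 (2 r + 1) k ^ 2 (⌊log₂ k⌋ + 1) ^ 3 ≤ n`. A rule sees the list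
of triples (visited vertex, its objective value, its set of improving directions), the current one first,
and names a nonempty family of at most `2 ^ r` nonempty sets `T` of improving directions and a set `D` of
at most `r` directions. The candidates are all the vertices which agree outside `D` with one of the
vertices `sw x T`, `x` the current vertex. For every rule and every start vertex `x₀` of the `n`-cube there
is an injective objective function `f` with exactly one local maximum on every face (so that switching
improving directions increases `f`, and increasing paths of at most `n` steps lead from every vertex to the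
maximum) such that the method which always moves to the highest candidate reaches the maximum, from `x₀`,
after `L ≥ 2 ^ k` moves. -/
theorem result (n k r : ℕ) (hk : 1 ≤ k) (hr : r ≤ k)
    (hn : 15500 * (2 * r + 1) * k ^ 2 * (Nat.log 2 k + 1) ^ 3 ≤ n)
    (rule : List ((Fin n → Bool) × ℕ × Finset (Fin n)) →
      Finset (Finset (Fin n)) × Finset (Fin n))
    (hrule : ∀ (x : Fin n → Bool) (c : ℕ) (S : Finset (Fin n))
      (l : List ((Fin n → Bool) × ℕ × Finset (Fin n))), S.Nonempty →
        (rule ((x, c, S) :: l)).1.Nonempty ∧ (rule ((x, c, S) :: l)).1.card ≤ 2 ^ r ∧
        (rule ((x, c, S) :: l)).2.card ≤ r ∧
        ∀ T ∈ (rule ((x, c, S) :: l)).1, T.Nonempty ∧ T ⊆ S)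
    (x₀ : Fin n → Bool) :
    ∃ (f : (Fin n → Bool) → ℕ) (L : ℕ) (w : ℕ → (Fin n → Bool)),
      Function.Injective f ∧
      (∀ (U : Finset (Fin n)) (x : Fin n → Bool), ∃! y : Fin n → Bool,
        (∀ i, i ∉ U → y i = x i) ∧ ∀ i ∈ U, f (TH70.AR.flip y i) < f y) ∧
      (∀ (x : Fin n → Bool) (T : Finset (Fin n)), T.Nonempty → T ⊆ improving f x →
        f x < f (sw x T)) ∧
      (∀ x : Fin n → Bool, ∃ (m : ℕ) (v : ℕ → (Fin n → Bool)), m ≤ n ∧ v 0 = x ∧
        (∀ t < m, ∃ i ∈ improving f (v t), v (t + 1) = TH70.AR.flip (v t) i) ∧
        improving f (v m) = ∅) ∧
      w 0 = x₀ ∧
      (∀ t < L, (improving f (w t)).Nonempty ∧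
        Cand (w t) (rule (seen f w t)).1 (rule (seen f w t)).2 (w (t + 1)) ∧
        ∀ y, Cand (w t) (rule (seen f w t)).1 (rule (seen f w t)).2 y → f y ≤ f (w (t + 1))) ∧
      improving f (w L) = ∅ ∧ 2 ^ k ≤ L := by
  obtain ⟨f, h1, h2, L, w, h3, h4, h5, h6⟩ := slow hk hr hn rule hrule x₀
  exact ⟨f, L, w, h1, h2, fun x T hT hTi => sw_lt h2 T hTi hT, short_path h2, h3, h4, h5, h6⟩

end Pool.Agent.Results.MP_4d246d_lc.LargeNeighbourhoods
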