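import Pool.Agent.J4.H16.LA.Final
set_option autoImplicit false

/-!
# Looking many pivots ahead does not make a pivot rule polynomial on abstract cubes

The starting result `AllDeterministicRules` and its successors treat rules which see, for all visited
vertices, the objective values and the sets of improving directions. Here a rule sees much more: at every
visited vertex it may evaluate all vertices which can be reached from there by at most `r` improving steps,
and it learns the values and the sets of improving directions of all of them. It may use everything that it
has seen in any way. Still, if `2 ^ 24 (k + r + 1) ^ 6 ≤ n`, then for every such deterministic rule and every
start vertex there is an injective objective function on the vertices of the `n`-cube with exactly one local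
maximum on every face on which the rule makes at least `2 ^ k` steps. So even a rule that explores all
increasing paths of length `r = n ^ (1/6) / 32` from every visited vertex (these may be more than
`2 ^ (n ^ (1/6))` vertices each time) needs `2 ^ (c n ^ (1/6))` pivots, where at most `n` would do.

Proof. The adversary of `AllDeterministicRules` decides the answers one by one when a vertex is visited; here
he must commit himself to everything within `r` improving steps, before he knows where the rule will go.
The present face always carries a function with two regions, each uniformly oriented: towards `t` up to `r`
useful flips from the base vertex `a`, and towards `t'` with larger values beyond (`two`). A batch of steps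
ends when the rule has made `r + 1` useful flips; the face on which these are frozen is a hypersink, and
inside it the walk sees only the second region, which becomes the first region of the next batch. Flips
which were made in the same batch but were not useful are wasted for one more batch, as the rule has already
seen beyond them. A play (`Play`) is a sequence of such steps together with the possibility to extend what has
been shown to an objective function with any further hypersinks that contain nothing of what has been seen;
for this they must contain more than `r` useful directions of every record. Plays are composed (`play_nested`)
and, if the exit of the second wipes all the records of the first one, the directions frozen by the first one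
are released (`play_release`). In a wiping phase every record gets the weight `(1 - 1/(c+1)) ^ (number of
its useful directions already frozen against it)`; since a batch can exclude few directions, the adversary
excludes those which are useless for most of the weight and, one group after the other, those which could
only be flipped to the wrong side, until the total weight decreases by the factor `1 - 1/(2(c+1)^2)`.
-/

namespace Pool.Agent.Results.MP_4d246d_lc.Lookahead

open Finset Pool.Agent.TH70.AR Pool.Agent.J4.H16.LA

/-- **Deterministic pivot rules which see everything within `r` improving steps are exponential on
abstract objective functions.** Let `2 ^ 24 (k + r + 1) ^ 6 ≤ n`. A rule sees a list of pairs (visited vertex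
`x`, what can be seen from `x`), the current one first, and names an improving direction at the current
vertex; from `x` it can see the objective value and the set of improving directions of every vertex which can
be reached from `x` by at most `r` improving steps. For every rule and every start vertex `x₀` of the
`n`-cube there is an injective objective function `f` with exactly one local maximum on every face (so that
increasing paths of at most `n` steps lead from every vertex to the maximum) such that the rule, started at
`x₀`, reaches the maximum after `L ≥ 2 ^ k` steps. -/
theorem result (n k r : ℕ) (hn : 2 ^ 24 * (k + r + 1) ^ 6 ≤ n)
    (rule : List ((Fin n → Bool) × ((Fin n → Bool) → Option (ℕ × Finset (Fin n)))) → Fin n)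
    (hrule : ∀ (x : Fin n → Bool) (V : (Fin n → Bool) → Option (ℕ × Finset (Fin n))) (c : ℕ)
      (S : Finset (Fin n))
      (l : List ((Fin n → Bool) × ((Fin n → Bool) → Option (ℕ × Finset (Fin n))))),
      V x = some (c, S) → S.Nonempty → rule ((x, V) :: l) ∈ S)
    (x₀ : Fin n → Bool) :
    ∃ (f : (Fin n → Bool) → ℕ) (L : ℕ) (w : ℕ → (Fin n → Bool)),
      Function.Injective f ∧
      (∀ (U : Finset (Fin n)) (x : Fin n → Bool), ∃! y : Fin n → Bool,
        (∀ i, i ∉ U → y i = x i) ∧ ∀ i ∈ U, f (Pool.Agent.TH70.AR.flip y i) < f y) ∧
      (∀ x : Fin n → Bool, ∃ (m : ℕ) (v : ℕ → (Fin n → Bool)), m ≤ n ∧ v 0 = x ∧
        (∀ t < m, ∃ i ∈ improving f (v t), v (t + 1) = Pool.Agent.TH70.AR.flip (v t) i) ∧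
        improving f (v m) = ∅) ∧
      w 0 = x₀ ∧
      (∀ t < L, (improving f (w t)).Nonempty ∧
        w (t + 1) = Pool.Agent.TH70.AR.flip (w t) (rule (lseen f r w t))) ∧
      improving f (w L) = ∅ ∧ 2 ^ k ≤ L := by
  obtain ⟨f, h1, h2, L, w, h3, h4, h5, h6⟩ := lookahead_slow hn (A := rule) hrule x₀
  exact ⟨f, L, w, h1, h2, short_path h2, h3, h4, h5, h6⟩

end Pool.Agent.Results.MP_4d246d_lc.Lookahead
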